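import Pool.Agent.H564R3.MR.Defs

/-! Straight-line programs on bits and negated bits, where the negated bits are unreliable. -/

set_option autoImplicit false

namespace Pool.Agent.H64.FN

open Pool.Agent.H564R3.MR (Instr exec IsMono HasClique)
open Pool.Agent.H564R3.PW (Arc)

open Classical in
/-- The values of the literals on the input `x` if the negated inputs of the bits in `Z` are stuck
at `0`: `(e, true)` is the bit `e` and `(e, false)` is its negation. -/
noncomputable def literals {E : Type} (x : E → Bool) (Z : Set E) : E × Bool → Bool :=
  fun p => if p.2 = true then x p.1 else if p.1 ∈ Z then false else !x p.1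

/-- The program `p`, whose inputs are the literals, accepts the input `x` (register `o` contains a
number `≥ 1` at the end) if the negated inputs of the bits in `Z` are stuck at `0`. -/
def Accepts {E ρ : Type} [DecidableEq ρ] (p : List (Instr (E × Bool) ρ)) (o : ρ) (x : E → Bool)
    (Z : Set E) : Prop :=
  1 ≤ exec (literals x Z) p o

/-- The probability that the input `x` is accepted by a program that is chosen uniformly at random
from the family `p`, without faults. -/
noncomputable def acceptance {E ρ R : Type} [DecidableEq ρ] (p : R → List (Instr (E × Bool) ρ))
    (o : ρ) (x : E → Bool) : ℝ :=
  (Nat.card {r : R // Accepts (p r) o x ∅} : ℝ) / Nat.card R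

/-- The probability that the input `x` is accepted by a program that is chosen uniformly at random
from the family `p`, if each negated input is stuck at `0` independently with probability `1 / D`
(each bit `e` gets a random number from `0` to `D - 1`, and `0` means a fault). -/
noncomputable def faultyAcceptance {E ρ R : Type} [DecidableEq ρ]
    (p : R → List (Instr (E × Bool) ρ)) (o : ρ) (D : ℕ) (x : E → Bool) : ℝ :=
  (Nat.card {v : R × (E → Fin D) // Accepts (p v.1) o x {e | (v.2 e : ℕ) = 0}} : ℝ) /
    Nat.card (R × (E → Fin D))

/-- The random program `p` consists of programs with nondecreasing operations on the bits of a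
graph and their negations. It accepts each graph with a chained multicoloured clique with
probability at least `4 / 5` even if each negated input is stuck at `0` independently with
probability `1 / D`, and each other graph with probability at most `1 / 4` without faults. -/
structure Tolerates {k n m : ℕ} {ρ R : Type} [DecidableEq ρ] (D : ℕ)
    (p : R → List (Instr (Arc k n m × Bool) ρ)) (o : ρ) : Prop where
  mono : ∀ r, IsMono (p r)
  yes : ∀ x : Arc k n m → Bool, HasClique x → 4 / 5 ≤ faultyAcceptance p o D x
  no : ∀ x : Arc k n m → Bool, ¬ HasClique x → acceptance p o x ≤ 1 / 4

end Pool.Agent.H64.FN
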