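import Pool.Agent.H64.FN.Thick
import Pool.Agent.H564R3.MR.Fam

/-! The small instance is hidden at the faulty positions between classes of candidates. -/

set_option autoImplicit false
set_option linter.unusedSectionVars false
set_option linter.unusedVariables false

namespace Pool.Agent.H64.FN

open Finset
open Pool.Agent.H564R3.MR
open Pool.Agent.H564R3.PW (Pos pairs Arc var)

section Mono

variable {X ρ : Type} [DecidableEq ρ]

lemma exec_mono_aux (p : List (Instr X ρ)) : IsMono p → ∀ {w w' : X → Bool}, w ≤ w' →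
    ∀ {v v' : ρ → ℝ}, v ≤ v' →
      p.foldl (fun v I => I.run w v) v ≤ p.foldl (fun v I => I.run w' v) v' := by
  induction p with
  | nil => intro _ w w' _ v v' hv; exact hv
  | cons I p ih =>
    intro hp w w' hw v v' hv
    rw [List.foldl_cons, List.foldl_cons]
    refine ih (fun i f j l h => hp i f j l (List.mem_cons_of_mem _ h)) hw ?_
    cases I with
    | load i x =>
      intro r
      simp only [Instr.run]
      by_cases h : r = i
      · subst h
        rw [Function.update_self, Function.update_self]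
        have := hw x
        by_cases hx : w x = true
        · have hx' : w' x = true := by
            rw [hx] at this
            exact Bool.eq_true_of_true_le this
          rw [if_pos hx, if_pos hx']
        · rw [if_neg hx]
          split_ifs <;> norm_num
      · rw [Function.update_of_ne h, Function.update_of_ne h]
        exact hv r
    | app i f j l =>
      intro r
      simp only [Instr.run]
      by_cases h : r = i
      · subst h
        rw [Function.update_self, Function.update_self]
        exact hp r f j l (by simp) _ _ _ _ (hv j) (hv l)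
      · rw [Function.update_of_ne h, Function.update_of_ne h]
        exact hv r

lemma exec_mono {p : List (Instr X ρ)} (hp : IsMono p) {w w' : X → Bool} (hw : w ≤ w') :
    exec w p ≤ exec w' p := exec_mono_aux p hp hw le_rfl

/-- substitution of input bits and constants for the inputs -/
noncomputable def sub {L : Type} (σ : L → Option X) (c : L → Bool) : Instr L ρ → Instr X ρ
  | .load i l => (σ l).elim (.app i (fun _ _ => if c l = true then 1 else 0) i i) (.load i)
  | .app i f j l => .app i f j l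

lemma sub_run {L : Type} (σ : L → Option X) (c : L → Bool) (w : X → Bool) (I : Instr L ρ)
    (v : ρ → ℝ) : (sub σ c I).run w v = I.run (fun l => (σ l).elim (c l) w) v := by
  cases I with
  | load i l =>
    unfold sub
    rcases h : σ l with _ | y
    · simp [Instr.run, h]
    · simp [Instr.run, h]
  | app i f j l => rfl

lemma sub_exec {L : Type} (σ : L → Option X) (c : L → Bool) (w : X → Bool)
    (p : List (Instr L ρ)) :
    exec w (p.map (sub σ c)) = exec (fun l => (σ l).elim (c l) w) p := by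
  unfold exec
  rw [List.foldl_map]
  congr 1
  funext v I
  exact sub_run σ c w I v

lemma sub_mono {L : Type} (σ : L → Option X) (c : L → Bool) {p : List (Instr L ρ)}
    (hp : IsMono p) : IsMono (p.map (sub σ c)) := by
  intro i f j l hmem
  rw [List.mem_map] at hmem
  obtain ⟨I, hI, hIe⟩ := hmem
  cases I with
  | load i' x =>
    have hIe' : (σ x).elim (Instr.app i' (fun _ _ => if c x = true then 1 else 0) i' i')
        (Instr.load i') = Instr.app i f j l := hIe
    rcases h : σ x with _ | y
    · rw [h] at hIe'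
      simp only [Option.elim_none] at hIe'
      injection hIe' with h1 h2 h3 h4
      subst h2
      intro _ _ _ _ _ _
      exact le_refl _
    · rw [h] at hIe'
      simp at hIe'
  | app i' f' j' l' =>
    have hIe' : Instr.app i' f' j' l' = Instr.app i f j l := hIe
    injection hIe' with h1 h2 h3 h4
    subst h1 h2 h3 h4
    exact hp i' f' j' l' hI

end Mono

section Blocks

variable {E : Type} [Fintype E] [DecidableEq E] {D : ℕ}

open Classical in
/-- functions which do not vanish on any of some disjoint blocks -/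
lemma blocks_avoid (hD : 0 < D) {ι : Type} [DecidableEq ι] (A : ι → Finset E)
    (hdis : ∀ i j, i ≠ j → Disjoint (A i) (A j)) (P : ℕ) (hP : ∀ i, (A i).card ≤ P)
    (I : Finset ι) :
    ((univ.filter fun f : E → Fin D => ∀ i ∈ I, ∃ e ∈ A i, (f e : ℕ) ≠ 0).card : ℝ) ≤
      (1 - 1 / (D : ℝ) ^ P) ^ I.card * (D : ℝ) ^ Fintype.card E := by
  have hDR : (0 : ℝ) < D := by exact_mod_cast hD
  have hD1 : (1 : ℝ) ≤ D := by exact_mod_cast hD
  have hDP : (0 : ℝ) < (D : ℝ) ^ P := by positivity
  have h0 : 0 ≤ 1 - 1 / (D : ℝ) ^ P := by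
    rw [sub_nonneg, div_le_one hDP]
    exact one_le_pow₀ hD1
  induction I using Finset.induction_on with
  | empty =>
    simp only [notMem_empty, false_imp_iff, implies_true, filter_true, card_empty, pow_zero,
      one_mul]
    rw [card_univ, Fintype.card_fun, Fintype.card_fin]
    push_cast
    exact le_rfl
  | insert j I hj ih =>
    set N : Finset (E → Fin D) :=
      univ.filter fun f : E → Fin D => ∀ i ∈ I, ∃ e ∈ A i, (f e : ℕ) ≠ 0 with hN
    set Z : Finset (E → Fin D) := N.filter fun f => ∀ e ∈ A j, (f e : ℕ) = 0 with hZ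
    -- the zeroing map
    set z : (E → Fin D) → (E → Fin D) := fun f e => if e ∈ A j then ⟨0, hD⟩ else f e with hz
    have hmaps : N.image z ⊆ Z := by
      intro g hg
      rw [mem_image] at hg
      obtain ⟨f, hf, rfl⟩ := hg
      rw [hN, mem_filter] at hf
      rw [hZ, mem_filter, hN, mem_filter]
      refine ⟨⟨mem_univ _, fun i hi => ?_⟩, fun e he => ?_⟩
      · obtain ⟨e, he, hfe⟩ := hf.2 i hi
        refine ⟨e, he, ?_⟩
        have hij : i ≠ j := fun h => hj (h ▸ hi)
        have : e ∉ A j := fun h => (Finset.disjoint_left.1 (hdis i j hij)) he h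
        simp only [hz, if_neg this]
        exact hfe
      · simp only [hz, if_pos he]
    have hfib : N.card ≤ D ^ P * (N.image z).card := by
      refine card_le_mul_card_image N (D ^ P) fun g _ => ?_
      have h1 : (N.filter fun f => z f = g).card ≤ Fintype.card ({e // e ∈ A j} → Fin D) := by
        rw [← card_univ]
        refine card_le_card_of_injOn (fun f e => f e.1) (fun _ _ => by simp) ?_
        intro f hf f' hf' hff
        rw [mem_coe, mem_filter] at hf hf'
        funext e
        by_cases he : e ∈ A j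
        · exact congrFun hff ⟨e, he⟩
        · have h2 := congrFun (hf.2.trans hf'.2.symm) e
          simpa only [hz, if_neg he] using h2
      refine h1.trans ?_
      rw [Fintype.card_fun, Fintype.card_fin, Fintype.card_coe]
      exact Nat.pow_le_pow_right hD (hP j)
    have hsplit : (univ.filter fun f : E → Fin D => ∀ i ∈ insert j I, ∃ e ∈ A i, (f e : ℕ) ≠ 0) =
        N \ Z := by
      ext f
      simp only [hN, hZ, mem_filter, mem_univ, true_and, mem_sdiff, mem_insert, forall_eq_or_imp,
        not_and, not_forall, exists_prop]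
      constructor
      · rintro ⟨h1, h2⟩
        exact ⟨h2, fun _ => h1⟩
      · rintro ⟨h1, h2⟩
        exact ⟨h2 h1, h1⟩
    rw [hsplit, card_sdiff_of_subset (filter_subset _ _), Nat.cast_sub (card_le_card (filter_subset _ _)),
      card_insert_of_notMem hj]
    have h2 : (N.card : ℝ) ≤ (D : ℝ) ^ P * (Z.card : ℝ) := by
      have := hfib.trans (Nat.mul_le_mul_left _ (card_le_card hmaps))
      exact_mod_cast this
    have h3 : (N.card : ℝ) / (D : ℝ) ^ P ≤ Z.card := by
      rw [div_le_iff₀ hDP]
      linarith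
    calc (N.card : ℝ) - Z.card ≤ (1 - 1 / (D : ℝ) ^ P) * N.card := by
          have : (1 - 1 / (D : ℝ) ^ P) * N.card = N.card - N.card / (D : ℝ) ^ P := by ring
          rw [this]
          linarith
      _ ≤ (1 - 1 / (D : ℝ) ^ P) * ((1 - 1 / (D : ℝ) ^ P) ^ I.card * (D : ℝ) ^ Fintype.card E) :=
          mul_le_mul_of_nonneg_left ih h0
      _ = _ := by rw [pow_succ]; ring

end Blocks

section Host

variable {k n₀ n q m : ℕ}

/-- the class of a candidate -/
def cl (q s : ℕ) {m : ℕ} (c : Fin m) : Option (Fin q) :=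
  if h : c.val / s < q then some ⟨c.val / s, h⟩ else none

/-- the small arc under an arc between the first layers -/
def sm (n₀ q s : ℕ) (x : Arc k n m) : Option (Arc k n₀ q) :=
  if h : x.1.1.2.val < n₀ ∧ x.2.1.2.val < n₀ then
    (cl q s x.1.2).bind fun a => (cl q s x.2.2).map fun b =>
      (((x.1.1.1, ⟨x.1.1.2.val, h.1⟩), a), ((x.2.1.1, ⟨x.2.1.2.val, h.2⟩), b))
  else none

/-- the arcs which touch the other layers -/
def big (n₀ : ℕ) (x : Arc k n m) : Bool := decide (¬ (x.1.1.2.val < n₀ ∧ x.2.1.2.val < n₀))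

/-- the arcs between the classes of adjacent vertices -/
def Sw (s : ℕ) (w : Arc k n₀ q → Bool) : Set (Arc k n m) :=
  {x | ∃ y, sm n₀ q s x = some y ∧ w y = true}

lemma sm_not_big {s : ℕ} {x : Arc k n m} {y : Arc k n₀ q} (h : sm n₀ q s x = some y) :
    big n₀ x = false := by
  unfold sm at h
  split_ifs at h with h1
  unfold big
  simpa using h1

lemma host_lits {D : ℕ} (s : ℕ) (w : Arc k n₀ q → Bool) (f : Arc k n m → Fin D) :
    literals (mix (Sw s w) (big n₀) f) (flt f) = fun l : Arc k n m × Bool =>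
      (if l.2 = true ∧ (f l.1 : ℕ) = 0 then sm n₀ q s l.1 else none).elim
        (if l.2 = true then big n₀ l.1 else (!big n₀ l.1 && decide ((f l.1 : ℕ) ≠ 0))) w := by
  classical
  funext l
  obtain ⟨x, b⟩ := l
  unfold literals
  by_cases hf : (f x : ℕ) = 0
  · cases b with
    | true =>
      simp only [if_true, hf, and_self]
      rcases hs : sm n₀ q s x with _ | y
      · have hx : x ∉ Sw s w := by
          rintro ⟨y, hy, _⟩
          rw [hs] at hy
          simp at hy
        simp [mix, hx]
      · by_cases hw : w y = true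
        · have hx : x ∈ Sw s w := ⟨y, hs, hw⟩
          simp [mix, hx, hf, hw]
        · have hx : x ∉ Sw s w := by
            rintro ⟨y', hy', hw'⟩
            rw [hs] at hy'
            simp only [Option.some.injEq] at hy'
            exact hw (hy' ▸ hw')
          have := sm_not_big hs
          simp [mix, hx, this, hw]
    | false =>
      have hx : x ∈ flt f := hf
      simp [hx, hf]
  · have hx' : x ∉ flt f := hf
    have hmix : mix (Sw s w) (big n₀) f x = big n₀ x := by
      unfold mix
      by_cases hx : x ∈ Sw s w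
      · rw [if_pos hx]
        obtain ⟨y, hy, _⟩ := hx
        rw [sm_not_big hy]
        simpa using hf
      · rw [if_neg hx]
    cases b with
    | true => simp [hf, hmix]
    | false => simp [hf, hx', hmix]

/-- a member of a class -/
def cand {s : ℕ} (hqs : q * s ≤ m) (a : Fin q) (i : Fin s) : Fin m :=
  ⟨a.val * s + i.val, by
    have h1 : (a.val + 1) * s ≤ q * s := Nat.mul_le_mul_right _ a.isLt
    have h2 : (a.val + 1) * s = a.val * s + s := by ring
    have := i.isLt
    omega⟩

lemma cl_cand {s : ℕ} (hqs : q * s ≤ m) (a : Fin q) (i : Fin s) :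
    cl q s (cand hqs a i) = some a := by
  have hs : 0 < s := Nat.pos_of_ne_zero (fun h => by have := i.isLt; omega)
  have h1 : (a.val * s + i.val) / s = a.val := by
    rw [Nat.add_comm, Nat.add_mul_div_right _ _ hs, Nat.div_eq_of_lt i.isLt, Nat.zero_add]
  unfold cl cand
  simp [h1]

/-- the arc of the pair `e` between the members number `i` of the classes -/
def arcI {s : ℕ} (hn : n₀ ≤ n) (hqs : q * s ≤ m) (x : Pos k n₀ → Fin q) (i : Fin s)
    (e : Pos k n₀ × Pos k n₀) : Arc k n m :=
  (((e.1.1, ⟨e.1.2.val, lt_of_lt_of_le e.1.2.isLt hn⟩), cand hqs (x e.1) i),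
    ((e.2.1, ⟨e.2.2.val, lt_of_lt_of_le e.2.2.isLt hn⟩), cand hqs (x e.2) i))

lemma sm_arcI {s : ℕ} (hn : n₀ ≤ n) (hqs : q * s ≤ m) (x : Pos k n₀ → Fin q) (i : Fin s)
    (e : Pos k n₀ × Pos k n₀) : sm n₀ q s (arcI (n := n) hn hqs x i e) = some (var x e) := by
  unfold sm
  rw [dif_pos ⟨e.1.2.isLt, e.2.2.isLt⟩]
  have h1 : cl q s (arcI (n := n) hn hqs x i e).1.2 = some (x e.1) := cl_cand hqs _ _
  have h2 : cl q s (arcI (n := n) hn hqs x i e).2.2 = some (x e.2) := cl_cand hqs _ _
  rw [h1, h2]
  rfl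

lemma arcI_inj {s : ℕ} (hn : n₀ ≤ n) (hqs : q * s ≤ m) (x : Pos k n₀ → Fin q) (i j : Fin s)
    (e e' : Pos k n₀ × Pos k n₀)
    (h : arcI (n := n) hn hqs x i e = arcI hn hqs x j e') : i = j := by
  have h1 : (cand hqs (x e.1) i : Fin m) = cand hqs (x e'.1) j := congrArg (fun a => a.1.2) h
  have h2 : (x e.1).val * s + i.val = (x e'.1).val * s + j.val := congrArg Fin.val h1
  have h3 := congrArg (fun t => t % s) h2
  simp only [Nat.mul_add_mod_self_right] at h3
  rw [Nat.mod_eq_of_lt i.isLt, Nat.mod_eq_of_lt j.isLt] at h3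
  exact Fin.ext h3

/-- cliques of the large graph give cliques of the small graph -/
lemma clique_back {D s : ℕ} (hn : n₀ ≤ n) (hq : 1 ≤ q) (w : Arc k n₀ q → Bool)
    (f : Arc k n m → Fin D) (h : HasClique (mix (Sw s w) (big n₀) f)) : HasClique w := by
  classical
  obtain ⟨φ, hφ⟩ := h
  refine ⟨fun u => (cl q s (φ (u.1, ⟨u.2.val, lt_of_lt_of_le u.2.isLt hn⟩))).getD ⟨0, hq⟩, ?_⟩
  intro e he
  have hmem : (((e.1.1, ⟨e.1.2.val, lt_of_lt_of_le e.1.2.isLt hn⟩),
      (e.2.1, ⟨e.2.2.val, lt_of_lt_of_le e.2.2.isLt hn⟩)) : Pos k n × Pos k n) ∈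
      pairs k n := by
    unfold pairs at he ⊢
    rw [mem_filter] at he ⊢
    refine ⟨mem_univ _, ?_⟩
    rcases he.2 with ⟨h1, h2⟩ | h1
    · left
      exact ⟨by simp [h1], h2⟩
    · right
      exact h1
  have h1 := hφ _ hmem
  unfold mix at h1
  split_ifs at h1 with h2
  · obtain ⟨y, hy, hw⟩ := h2
    unfold sm at hy
    have hlt : (var φ ((e.1.1, (⟨e.1.2.val, lt_of_lt_of_le e.1.2.isLt hn⟩ : Fin n)),
        (e.2.1, (⟨e.2.2.val, lt_of_lt_of_le e.2.2.isLt hn⟩ : Fin n)))).1.1.2.val < n₀ ∧
        (var φ ((e.1.1, (⟨e.1.2.val, lt_of_lt_of_le e.1.2.isLt hn⟩ : Fin n)),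
        (e.2.1, (⟨e.2.2.val, lt_of_lt_of_le e.2.2.isLt hn⟩ : Fin n)))).2.1.2.val < n₀ :=
      ⟨e.1.2.isLt, e.2.2.isLt⟩
    rw [dif_pos hlt] at hy
    rw [Option.bind_eq_some_iff] at hy
    obtain ⟨a, ha, hy⟩ := hy
    rw [Option.map_eq_some_iff] at hy
    obtain ⟨b, hb, hy⟩ := hy
    rw [← hw, ← hy]
    congr 1
    have ha' : (cl q s (φ (e.1.1, ⟨e.1.2.val, lt_of_lt_of_le e.1.2.isLt hn⟩))).getD ⟨0, hq⟩ = a := by
      have : cl q s (φ (e.1.1, ⟨e.1.2.val, lt_of_lt_of_le e.1.2.isLt hn⟩)) = some a := ha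
      rw [this]
      rfl
    have hb' : (cl q s (φ (e.2.1, ⟨e.2.2.val, lt_of_lt_of_le e.2.2.isLt hn⟩))).getD ⟨0, hq⟩ = b := by
      have : cl q s (φ (e.2.1, ⟨e.2.2.val, lt_of_lt_of_le e.2.2.isLt hn⟩)) = some b := hb
      rw [this]
      rfl
    exact Prod.ext (Prod.ext rfl ha') (Prod.ext rfl hb')
  · exfalso
    unfold big at h1
    rw [decide_eq_true_eq] at h1
    exact h1 ⟨e.1.2.isLt, e.2.2.isLt⟩

/-- a positive test graph gives a clique if one diagonal is faulty everywhere -/
lemma clique_forth {D s : ℕ} (hn : n₀ ≤ n) (hm : 1 ≤ m) (hqs : q * s ≤ m)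
    (x : Pos k n₀ → Fin q) (f : Arc k n m → Fin D) (i : Fin s)
    (hi : ∀ e ∈ pairs k n₀, (f (arcI hn hqs x i e) : ℕ) = 0) :
    HasClique (mix (Sw s (wpos x)) (big n₀) f) := by
  classical
  refine ⟨fun u => if h : u.2.val < n₀ then cand hqs (x (u.1, ⟨u.2.val, h⟩)) i else ⟨0, hm⟩, ?_⟩
  intro e he
  by_cases h : e.1.2.val < n₀ ∧ e.2.2.val < n₀
  · set e₀ : Pos k n₀ × Pos k n₀ :=
      ((e.1.1, ⟨e.1.2.val, h.1⟩), (e.2.1, ⟨e.2.2.val, h.2⟩)) with he₀
    have hmem : e₀ ∈ pairs k n₀ := by
      unfold pairs at he ⊢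
      rw [mem_filter] at he ⊢
      refine ⟨mem_univ _, ?_⟩
      rcases he.2 with ⟨h1, h2⟩ | h1
      · left
        exact ⟨by simp [he₀, h1], h2⟩
      · right
        exact h1
    have harc : var (fun u : Pos k n => if h : u.2.val < n₀ then
        cand hqs (x (u.1, ⟨u.2.val, h⟩)) i else (⟨0, hm⟩ : Fin m)) e = arcI hn hqs x i e₀ := by
      unfold var arcI
      simp only [he₀, h.1, h.2, dif_pos]
    rw [harc]
    have hS : arcI hn hqs x i e₀ ∈ (Sw s (wpos x) : Set (Arc k n m)) := by
      refine ⟨_, sm_arcI hn hqs x i e₀, ?_⟩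
      unfold wpos var
      simp
    unfold mix
    rw [if_pos hS, decide_eq_true_eq]
    exact hi _ hmem
  · have hb : big n₀ (var (fun u : Pos k n => if h : u.2.val < n₀ then
        cand hqs (x (u.1, ⟨u.2.val, h⟩)) i else (⟨0, hm⟩ : Fin m)) e) = true := by
      unfold big
      rw [decide_eq_true_eq]
      exact h
    unfold mix
    rw [if_neg, hb]
    rintro ⟨y, hy, _⟩
    rw [sm_not_big hy] at hb
    exact absurd hb (by simp)

open Classical in
/-- most functions vanish on a diagonal -/
lemma card_no_diagonal {D s : ℕ} (hD : 0 < D) (hn : n₀ ≤ n) (hqs : q * s ≤ m)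
    (hs : 4 * D ^ (pairs k n₀).card ≤ s) (x : Pos k n₀ → Fin q) :
    ((univ.filter fun f : Arc k n m → Fin D =>
      ¬ ∃ i : Fin s, ∀ e ∈ pairs k n₀, (f (arcI hn hqs x i e) : ℕ) = 0).card : ℝ) ≤
      1 / 20 * (D : ℝ) ^ Fintype.card (Arc k n m) := by
  have hDR : (0 : ℝ) < D := by exact_mod_cast hD
  have hD1 : (1 : ℝ) ≤ D := by exact_mod_cast hD
  have h1 := blocks_avoid (D := D) hD (fun i : Fin s => (pairs k n₀).image (arcI hn hqs x i))
    (fun i j hij => by
      rw [Finset.disjoint_left]
      intro e he he'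
      rw [mem_image] at he he'
      obtain ⟨a, _, ha⟩ := he
      obtain ⟨b, _, hb⟩ := he'
      exact hij (arcI_inj hn hqs x i j a b (ha.trans hb.symm)))
    (pairs k n₀).card (fun i => card_image_le) univ
  have h2 : (univ.filter fun f : Arc k n m → Fin D =>
      ¬ ∃ i : Fin s, ∀ e ∈ pairs k n₀, (f (arcI hn hqs x i e) : ℕ) = 0) =
      univ.filter fun f : Arc k n m → Fin D => ∀ i ∈ (univ : Finset (Fin s)),
        ∃ e ∈ (pairs k n₀).image (arcI hn hqs x i), (f e : ℕ) ≠ 0 := by
    ext f
    simp only [mem_filter, mem_univ, true_and, forall_true_left, mem_image, exists_exists_and_eq_and]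
    push Not
    rfl
  have h1' : ((univ.filter fun f : Arc k n m → Fin D => ∀ i ∈ (univ : Finset (Fin s)),
        ∃ e ∈ (pairs k n₀).image (arcI hn hqs x i), (f e : ℕ) ≠ 0).card : ℝ) ≤
      (1 - 1 / (D : ℝ) ^ (pairs k n₀).card) ^ (univ : Finset (Fin s)).card *
        (D : ℝ) ^ Fintype.card (Arc k n m) := by
    convert h1
  rw [h2]
  refine h1'.trans (mul_le_mul_of_nonneg_right ?_ (by positivity))
  rw [card_univ, Fintype.card_fin]
  set P := (pairs k n₀).card
  have hDP : (0 : ℝ) < (D : ℝ) ^ P := by positivity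
  have h0 : 0 ≤ 1 - 1 / (D : ℝ) ^ P := by
    rw [sub_nonneg, div_le_one hDP]
    exact one_le_pow₀ hD1
  have hs' : (4 : ℝ) * (D : ℝ) ^ P ≤ s := by exact_mod_cast hs
  calc (1 - 1 / (D : ℝ) ^ P) ^ s ≤ (Real.exp (-(1 / (D : ℝ) ^ P))) ^ s := by
        refine pow_le_pow_left₀ h0 ?_ _
        have := Real.add_one_le_exp (-(1 / (D : ℝ) ^ P))
        linarith
    _ = Real.exp (-(s / (D : ℝ) ^ P)) := by
        rw [← Real.exp_nat_mul]
        congr 1
        ring
    _ ≤ Real.exp (-4) := by
        rw [Real.exp_le_exp, neg_le_neg_iff, le_div_iff₀ hDP]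
        exact hs'
    _ ≤ 1 / 20 := by
        rw [Real.exp_neg, ← one_div]
        refine one_div_le_one_div_of_le (by norm_num) ?_
        have h3 : Real.exp 4 = Real.exp 1 ^ 4 := by
          rw [← Real.exp_nat_mul]
          norm_num
        rw [h3]
        have h4 := Real.exp_one_gt_d9
        have h5 : (2.7 : ℝ) ≤ Real.exp 1 := by linarith
        calc (20 : ℝ) ≤ 2.7 ^ 4 := by norm_num
          _ ≤ Real.exp 1 ^ 4 := pow_le_pow_left₀ (by norm_num) h5 _

end Host

end Pool.Agent.H64.FN
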